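import Mathlib

namespace Pool.Agent.Results.MP_a21721_al.Solvable

/-- Upper triangular 4 x 4 matrices over F_7 with diagonal (1, m, 1, m). -/
@[ext] structure T where
  a : ZMod 7
  b : ZMod 7
  c : ZMod 7
  g : ZMod 7
  d : ZMod 7
  t : ZMod 7
  m : ZMod 7
  h : m ^ 6 = 1
  deriving DecidableEq

instance : Mul T := ⟨fun x y => ⟨y.a + x.a * y.m, x.m * y.b + x.b, y.c + x.c * y.m,
  y.g + x.a * y.b + x.g, x.m * y.d + x.b * y.c + x.d * y.m, y.t + x.a * y.d + x.g * y.c + x.t * y.m,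
  x.m * y.m, by rw [mul_pow, x.h, y.h, one_mul]⟩⟩

instance : One T := ⟨⟨0, 0, 0, 0, 0, 0, 1, one_pow _⟩⟩

instance : Inv T := ⟨fun x => ⟨-x.a * x.m ^ 5, -x.m ^ 5 * x.b, -x.c * x.m ^ 5,
  -x.g + x.a * x.m ^ 5 * x.b, x.m ^ 4 * (x.b * x.c - x.d),
  -(x.a * (x.m ^ 4 * (x.b * x.c - x.d)) - x.g * x.c * x.m ^ 5 + x.t * x.m ^ 5), x.m ^ 5,
  by rw [← pow_mul, mul_comm, pow_mul, x.h, one_pow]⟩⟩

theorem mul_def (x y : T) : x * y = ⟨y.a + x.a * y.m, x.m * y.b + x.b, y.c + x.c * y.m,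
  y.g + x.a * y.b + x.g, x.m * y.d + x.b * y.c + x.d * y.m, y.t + x.a * y.d + x.g * y.c + x.t * y.m,
  x.m * y.m, by rw [mul_pow, x.h, y.h, one_mul]⟩ := rfl

theorem one_def : (1 : T) = ⟨0, 0, 0, 0, 0, 0, 1, one_pow _⟩ := rfl

theorem inv_def (x : T) : x⁻¹ = ⟨-x.a * x.m ^ 5, -x.m ^ 5 * x.b, -x.c * x.m ^ 5,
  -x.g + x.a * x.m ^ 5 * x.b, x.m ^ 4 * (x.b * x.c - x.d),
  -(x.a * (x.m ^ 4 * (x.b * x.c - x.d)) - x.g * x.c * x.m ^ 5 + x.t * x.m ^ 5), x.m ^ 5,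
  by rw [← pow_mul, mul_comm, pow_mul, x.h, one_pow]⟩ := rfl

instance : Group T := Group.ofRightAxioms
  (fun x y z => by ext <;> simp only [mul_def] <;> ring)
  (fun x => by ext <;> simp [mul_def, one_def])
  (fun x => by
    have h := x.h
    ext <;> simp only [mul_def, one_def, inv_def]
    · ring
    · linear_combination (-x.b) * h
    · ring
    · ring
    · ring
    · ring
    · linear_combination h)

def N1 : Subgroup T where
  carrier := {x | x.m = 1}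
  one_mem' := rfl
  mul_mem' := fun {x y} hx hy => by
    change x.m * y.m = 1
    rw [show x.m = 1 from hx, show y.m = 1 from hy, one_mul]
  inv_mem' := fun {x} hx => by
    change x.m ^ 5 = 1
    rw [show x.m = 1 from hx, one_pow]

def N2 : Subgroup T where
  carrier := {x | x.m = 1 ∧ x.a = 0 ∧ x.b = 0 ∧ x.c = 0}
  one_mem' := ⟨rfl, rfl, rfl, rfl⟩
  mul_mem' := by
    rintro x y ⟨h1, h2, h3, h4⟩ ⟨h5, h6, h7, h8⟩
    simp [mul_def, *]
  inv_mem' := by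
    rintro x ⟨h1, h2, h3, h4⟩
    simp [inv_def, *]

instance : Group.IsSolvable T := by
  have h1 : derivedSeries T 1 ≤ N1 := Subgroup.commutator_le.2 fun x _ y _ => by
    change x.m * y.m * x.m ^ 5 * y.m ^ 5 = 1
    linear_combination (y.m ^ 6) * x.h + y.h
  have h2 : derivedSeries T 2 ≤ N2 := Subgroup.commutator_le.2 fun x hx y hy => by
    have hx : x.m = 1 := h1 hx
    have hy : y.m = 1 := h1 hy
    rw [commutatorElement_def]
    refine ⟨?_, ?_, ?_, ?_⟩ <;> simp only [mul_def, inv_def, hx, hy] <;> ring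
  refine ⟨⟨3, le_bot_iff.1 (Subgroup.commutator_le.2 fun x hx y hy => ?_)⟩⟩
  obtain ⟨a1, a2, a3, a4⟩ := h2 hx
  obtain ⟨b1, b2, b3, b4⟩ := h2 hy
  rw [Subgroup.mem_bot, commutatorElement_def]
  ext <;> simp only [mul_def, inv_def, one_def, *] <;> ring

def a : T := ⟨0, 0, 0, 0, 0, 0, 5, by decide⟩
def c : T := ⟨0, 0, 0, 0, 0, 2, 1, by decide⟩
def x : T := ⟨1, 1, 1, 3, 5, 0, 1, by decide⟩

theorem card6 : Nat.card (ZMod 7 × {m : ZMod 7 // m ^ 6 = 1}) = 42 := by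
  rw [Nat.card_eq_fintype_card]; decide

theorem result : ∃ (H : Type) (_ : Group H), Group.IsSolvable H ∧ ∃ a c h : H,
    orderOf c = 7 ∧ orderOf a = 6 ∧ a⁻¹ * c * a = c ^ 5 ∧
    Nat.card (Subgroup.closure ({a, c} : Set H)) = 42 ∧
    h * (a⁻¹ * h⁻¹ * a) * ((a ^ 2)⁻¹ * h * a ^ 2) = c := by
  have hc : orderOf c = 7 := (orderOf_eq_iff (by omega)).2 ⟨by decide, by decide⟩
  have ha : orderOf a = 6 := (orderOf_eq_iff (by omega)).2 ⟨by decide, by decide⟩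
  refine ⟨T, inferInstance, inferInstance, a, c, x, hc, ha,
    by decide, ?_, by decide⟩
  let S : Subgroup T :=
    { carrier := {x | x.a = 0 ∧ x.b = 0 ∧ x.c = 0 ∧ x.g = 0 ∧ x.d = 0}
      one_mem' := ⟨rfl, rfl, rfl, rfl, rfl⟩
      mul_mem' := by
        rintro x y ⟨h1, h2, h3, h4, h5⟩ ⟨h6, h7, h8, h9, h10⟩
        simp [mul_def, *]
      inv_mem' := by
        rintro x ⟨h1, h2, h3, h4, h5⟩
        simp [inv_def, *] }
  have key : ∀ t m : ZMod 7, (h : m ^ 6 = 1) → ∃ i : Fin 7, ∃ j : Fin 6,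
      (⟨0, 0, 0, 0, 0, t, m, h⟩ : T) = c ^ (i : ℕ) * a ^ (j : ℕ) := by decide +kernel
  have e : Subgroup.closure ({a, c} : Set T) = S := by
    refine le_antisymm ((Subgroup.closure_le _).2 ?_) ?_
    · rintro _ (rfl | rfl) <;> exact ⟨rfl, rfl, rfl, rfl, rfl⟩
    · rintro ⟨_, _, _, _, _, t, m, h⟩ ⟨rfl, rfl, rfl, rfl, rfl⟩
      obtain ⟨i, j, hij⟩ := key t m h
      rw [hij]
      exact Subgroup.mul_mem _ (Subgroup.pow_mem _ (Subgroup.subset_closure (by simp)) _)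
        (Subgroup.pow_mem _ (Subgroup.subset_closure (by simp)) _)
  rw [e]
  let f : S ≃ ZMod 7 × {m : ZMod 7 // m ^ 6 = 1} :=
    { toFun := fun x => (x.1.t, ⟨x.1.m, x.1.h⟩)
      invFun := fun p => ⟨⟨0, 0, 0, 0, 0, p.1, p.2.1, p.2.2⟩, rfl, rfl, rfl, rfl, rfl⟩
      left_inv := fun y => Subtype.ext (T.ext y.2.1.symm y.2.2.1.symm y.2.2.2.1.symm
        y.2.2.2.2.1.symm y.2.2.2.2.2.symm rfl rfl)
      right_inv := fun _ => rfl }
  rw [Nat.card_congr f, card6]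

end Pool.Agent.Results.MP_a21721_al.Solvable
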